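import Pool.Agent.Y495.SM.Fol

/-!
MP_07cd05_gt. Boundary rigidity in dimension `n ≥ 3` is known under the foliation condition of
Stefanov, Uhlmann and Vasy: `M` is foliated, up to an exceptional set, by the strictly convex level
sets of a function. In every dimension `n ≥ 3` there is a smooth Riemannian metric `g` on `ℝ^n` and
a closed ball `M = {‖x‖ ≤ R}` such that `(M, g)` is simple (strictly convex boundary, no trapped
geodesic, no conjugate points) and such that no strictly convex level set of a function meets a
certain net in the interior of `M`, six arcs of circles of radius `r`: if the level sets of the `C²`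
function `f` are strictly convex in `{f > c}`, then the net lies in `{f ≤ c}`. So the exceptional
set of such a foliation contains the net; in particular it is neither a point nor a segment.

The metric is a perturbed near-hemisphere. The net is geodesic and balanced at its four vertices.
At the maximum of `f` on the net, `df` vanishes on an edge, by balance also at a vertex, and the
Hessian of `f` along the edge is nonpositive.
-/

namespace Pool.Agent.Results.MP_07cd05_gt.NoConvexFoliation

open Pool.Agent.Y495.SM Metric

theorem result : ∀ n : ℕ, 3 ≤ n →
    ∃ (g : MetricField n) (R r : ℝ) (e : Fin 3 → E n), IsSimple g R ∧ 0 < r ∧ r < R ∧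
      Orthonormal ℝ e ∧ ∀ (f : E n → ℝ) (c : ℝ), ContDiffOn ℝ 2 f (ball 0 R) →
        (∀ x ∈ ball (0 : E n) R, c < f x → ∀ v : E n, v ≠ 0 → fderiv ℝ f x v = 0 →
          0 < hess g f x v) →
        ∀ y ∈ Net e, f (r • y) ≤ c :=
  simple_no_fol

end Pool.Agent.Results.MP_07cd05_gt.NoConvexFoliation
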